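import Pool.Agent.Y560.TF.Stm

/-!
# Project TF (helper560), job TF-NFEW: fewness passes to the structure with names
-/

set_option autoImplicit false

namespace Pool.Agent.Y417.TF

open Set MeasureTheory
open Pool.Agent.H899R2.VP (St Adj PIso BF IsoOn idOn inv comp zipSet)
open Pool.Agent.H533R2.VO (RS lift put OS Ic RIso Dich VC BlkV S_FINAL)
open Pool.Agent.H566P (ar R2 v2 a0 a1 lt ac co mk S_ACC S_MSG)
open Pool.Agent.Y560.TG (acc msg lt_mk ac_mk co_mk R2_ext piso_iff riso_iff riso_isoOn meas_lt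
  meas_ac meas_co meas_into cont_into piso_lt piso_ac piso_co piso_eq ex lt_ex ac_ex co_ex_even
  co_ex_odd piso_ex orb orb_ex Nm Off Sm Thin Few bf_trans0 bf_symm0 iso_trans0 iso_symm0
  iso_refl0 S_EXT S_GL S_MAT S_BP mat pick Se)
open Pool.Agent.Y560.TF

/-- NFEW -/
theorem t_NFEW (hL : S_PL) (hP : S_BP) (hN : S_NMQ) : S_NFEW := by
  intro R O y β Bad hy hω hβ hfew hBad hmain
  rintro ⟨c, hc, hbf, hinj⟩
  obtain ⟨pl, hplm, hpl⟩ := hL R O
  obtain ⟨hT6, hT7⟩ := hN
  have hpl' := fun A => hpl (c A) ((hbf A).mono hω)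
  obtain ⟨V, hV⟩ : ∃ V : (ℕ → Bool) → R2, V = fun A => pl (c A) := ⟨_, rfl⟩
  have hiso : ∀ A, IsoOn (lift (Nm O (V A))) (lift (c A)) univ univ ∅ := by
    intro A
    rw [hV]
    exact riso_isoOn.1 (hpl' A).1
  have hoff : ∀ A, Off O R (V A) := by
    intro A
    rw [hV]
    exact (hpl' A).2
  have hbfV : ∀ A, BF (lift R) (lift (V A)) univ univ β (idOn Oᶜ) := fun A =>
    (hT6 R (V A) O β hω).1 (bf_trans0 (hbf A) ((iso_symm0 (hiso A)).bf β))
  have hdist : ∀ A A', IsoOn (lift (V A)) (lift (V A')) univ univ (idOn Oᶜ) → A = A' :=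
    fun A A' h => hinj A A' (riso_isoOn.2 (iso_trans0 (iso_trans0 (iso_symm0 (hiso A))
      (riso_isoOn.1 ((hT7 _ _ _).2 h))) (hiso A')))
  have hcnt : {A | V A ∈ Bad}.Countable := by
    obtain ⟨f, hf⟩ := hBad
    have h' : ∀ A : {A | V A ∈ Bad}, ∃ n, IsoOn (lift (f n)) (lift (V A)) univ univ (idOn Oᶜ) :=
      fun A => hf _ A.2
    choose n hn using h'
    have hinj' : Function.Injective n := by
      intro A A' h
      apply Subtype.ext
      apply hdist
      have h1 := hn A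
      have h2 := hn A'
      rw [← h] at h2
      refine (h1.symm.trans h2).mono ?_
      rintro ⟨u, v⟩ ⟨h4, h5⟩
      simp only at h4 h5
      subst h4
      exact ⟨u, ⟨rfl, h5⟩, ⟨rfl, h5⟩⟩
    exact Set.countable_coe_iff.1 hinj'.countable
  have hmeas : MeasurableSet ({A | V A ∈ Bad}ᶜ : Set (ℕ → Bool)) := hcnt.measurableSet.compl
  have hsb : StandardBorelSpace ({A | V A ∈ Bad}ᶜ : Set (ℕ → Bool)) := hmeas.standardBorel
  have hunc : ¬ Countable ({A | V A ∈ Bad}ᶜ : Set (ℕ → Bool)) := by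
    intro h
    apply Pool.Agent.H899R2.VP.not_countable_cantor
    have h1 : ({A | V A ∈ Bad}ᶜ : Set (ℕ → Bool)).Countable := Set.countable_coe_iff.1 h
    have h2 := hcnt.union h1
    rw [Set.union_compl_self] at h2
    exact Set.countable_univ_iff.1 h2
  refine hP {W | BF (lift R) (lift W) univ univ β ∅} ?_ hfew
    ({A | V A ∈ Bad}ᶜ : Set (ℕ → Bool)) hunc (fun ω => V ω.1) (fun _ => y) ?_ measurable_const
    (fun ω => (hbfV ω.1).subset (empty_subset _)) ?_
  · have hlift : Measurable (lift : R2 → St ar) := measurable_const.prodMk measurable_id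
    exact msg ar (lift R) univ R2 lift (fun _ => univ) hlift (fun z => by simp) β hβ ∅
  · have h1 : Measurable V := by
      rw [hV]
      exact hplm.comp hc.measurable
    exact h1.comp measurable_subtype_coe
  · intro ω ω' h
    apply Subtype.ext
    apply hdist
    exact hmain _ _ ω.2 (hoff _) (hoff _) (hbfV _) (hbfV _) h

end Pool.Agent.Y417.TF
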