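import Pool.Agent.Y560.TF.Stm
import Pool.Agent.Y560.TG.PL

/-!
# Project TF (helper560), job TF-PL: structures with names are variations in place, in a Borel way
-/

set_option autoImplicit false

namespace Pool.Agent.Y417.TF.PL

open Set MeasureTheory
open Pool.Agent.H899R2.VP (St Adj PIso BF IsoOn idOn inv comp zipSet)
open Pool.Agent.H533R2.VO (RS lift put OS Ic RIso Dich VC BlkV S_FINAL)
open Pool.Agent.H566P (ar R2 v2 a0 a1 lt ac co mk S_ACC S_MSG)
open Pool.Agent.Y560.TG (acc msg lt_mk ac_mk co_mk R2_ext piso_iff riso_iff riso_isoOn meas_lt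
  meas_ac meas_co meas_into cont_into piso_lt piso_ac piso_co piso_eq ex lt_ex ac_ex co_ex_even
  co_ex_odd piso_ex orb orb_ex Nm Off Sm Thin Few bf_trans0 bf_symm0 iso_trans0 iso_symm0
  iso_refl0 S_EXT S_GL S_MAT S_BP mat pick Se)
open Pool.Agent.Y560.TG.PL (nth_iff meas_count meas_nth count_inst)
open Pool.Agent.Y560.TF

/-! ### Matching -/

/-- The names agree, and the comparisons with the named elements agree. -/
def mt (R : R2) (O : Set ℕ) (W : R2) (v w : ℕ) : Prop :=
  (∀ k, (v = k ∧ v ∉ O) ↔ co W (2 * k + 1) w) ∧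
  ∀ k, k ∉ O → ∀ b, co W (2 * k + 1) b →
    ((lt R k v ↔ lt W b w) ∧ (lt R v k ↔ lt W w b) ∧
      ∀ n, (ac R n k v ↔ ac W n b w) ∧ (ac R n v k ↔ ac W n w b))

/-- The matching map. -/
noncomputable def ph (R : R2) (O : Set ℕ) (W : R2) : ℕ → ℕ := mat univ univ (mt R O W)

/-- The pull back of `W`. -/
noncomputable def plm (R : R2) (O : Set ℕ) (W : R2) : R2 :=
  mk (fun x y => lt W (ph R O W x) (ph R O W y)) (fun n x y => ac W n (ph R O W x) (ph R O W y))
    (fun n x => co W (2 * n) (ph R O W x))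

theorem meas_mt (R : R2) (O : Set ℕ) (v w : ℕ) : Measurable fun W : R2 => mt R O W v w := by
  refine (Measurable.forall fun k => ?_).and (Measurable.forall fun k => ?_)
  · exact measurable_const.iff (measurableSet_setOfPred.1 (meas_co _ _))
  · refine measurable_const.imp (Measurable.forall fun b => ?_)
    refine (measurableSet_setOfPred.1 (meas_co _ _)).imp ?_
    refine (measurable_const.iff (measurableSet_setOfPred.1 (meas_lt _ _))).and
      ((measurable_const.iff (measurableSet_setOfPred.1 (meas_lt _ _))).and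
        (Measurable.forall fun n => ?_))
    exact (measurable_const.iff (measurableSet_setOfPred.1 (meas_ac _ _ _))).and
      (measurable_const.iff (measurableSet_setOfPred.1 (meas_ac _ _ _)))

theorem meas_ph (R : R2) (O : Set ℕ) (x y : ℕ) : Measurable fun W : R2 => ph R O W x = y := by
  classical
  have h1 : (fun W : R2 => ph R O W x = y) = fun W : R2 => ∃ c,
      Nat.count (fun v => v ∈ univ ∧ ∃ w ∈ univ, mt R O W x w ∧ mt R O W v w) x = c ∧
      Nat.nth (fun w => w ∈ univ ∧ mt R O W x w) c = y := by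
    funext W
    unfold ph mat
    apply propext
    constructor
    · intro h
      exact ⟨_, rfl, Eq.trans (congrArg (Nat.nth _) (count_inst _ _ _ _)) h⟩
    · rintro ⟨c, rfl, h⟩
      exact Eq.trans (congrArg (Nat.nth _) (count_inst _ _ _ _)) h
  rw [h1]
  refine Measurable.exists fun c => Measurable.and ?_ ?_
  · refine meas_count (fun (W : R2) v => v ∈ univ ∧ ∃ w ∈ univ, mt R O W x w ∧ mt R O W v w)
      (fun v => ?_) x c
    refine measurable_const.and (Measurable.exists fun w => measurable_const.and ?_)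
    exact (meas_mt R O x w).and (meas_mt R O v w)
  · exact meas_nth (fun (W : R2) w => w ∈ univ ∧ mt R O W x w)
      (fun w => measurable_const.and (meas_mt R O x w)) c y

theorem meas_plm (R : R2) (O : Set ℕ) : Measurable (plm R O) := by
  refine meas_into (fun x y => ?_) (fun n x y => ?_) (fun n x => ?_)
  · have h1 : {W : R2 | lt (plm R O W) x y} = {W : R2 | ∃ a b, ph R O W x = a ∧
        ph R O W y = b ∧ lt W a b} := by
      ext W
      simp only [plm, lt_mk, mem_ofPred_eq]
      constructor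
      · exact fun h => ⟨_, _, rfl, rfl, h⟩
      · rintro ⟨a, b, rfl, rfl, h⟩
        exact h
    rw [h1]
    refine measurableSet_setOfPred.2 (Measurable.exists fun a => Measurable.exists fun b => ?_)
    exact (meas_ph R O x a).and ((meas_ph R O y b).and
      (measurableSet_setOfPred.1 (meas_lt a b)))
  · have h1 : {W : R2 | ac (plm R O W) n x y} = {W : R2 | ∃ a b, ph R O W x = a ∧
        ph R O W y = b ∧ ac W n a b} := by
      ext W
      simp only [plm, ac_mk, mem_ofPred_eq]
      constructor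
      · exact fun h => ⟨_, _, rfl, rfl, h⟩
      · rintro ⟨a, b, rfl, rfl, h⟩
        exact h
    rw [h1]
    refine measurableSet_setOfPred.2 (Measurable.exists fun a => Measurable.exists fun b => ?_)
    exact (meas_ph R O x a).and ((meas_ph R O y b).and
      (measurableSet_setOfPred.1 (meas_ac n a b)))
  · have h1 : {W : R2 | co (plm R O W) n x} = {W : R2 | ∃ a, ph R O W x = a ∧
        co W (2 * n) a} := by
      ext W
      simp only [plm, co_mk, mem_ofPred_eq]
      constructor
      · exact fun h => ⟨_, rfl, h⟩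
      · rintro ⟨a, rfl, h⟩
        exact h
    rw [h1]
    refine measurableSet_setOfPred.2 (Measurable.exists fun a => ?_)
    exact (meas_ph R O x a).and (measurableSet_setOfPred.1 (meas_co (2 * n) a))

/-- The matching is a bijection if the structures are equivalent. -/
theorem ph_bij (hM : S_MAT) (R : R2) (O : Set ℕ) (W : R2)
    (hW : BF (lift (Nm O R)) (lift W) univ univ Ordinal.omega0 ∅) :
    (∀ x, mt R O W x (ph R O W x)) ∧ Function.Bijective (ph R O W) := by
  have hd : ∀ v w v' w', mt R O W v w → mt R O W v' w → mt R O W v' w' → mt R O W v w' := by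
    rintro v w v' w' ⟨a1, a2⟩ ⟨b1, b2⟩ ⟨c1, c2⟩
    refine ⟨fun k => ?_, fun k hk b hb => ?_⟩
    · rw [a1 k, ← b1 k, c1 k]
    · obtain ⟨x1, x2, x3⟩ := a2 k hk b hb
      obtain ⟨y1, y2, y3⟩ := b2 k hk b hb
      obtain ⟨z1, z2, z3⟩ := c2 k hk b hb
      refine ⟨?_, ?_, fun n => ⟨?_, ?_⟩⟩
      · rw [x1, ← y1, z1]
      · rw [x2, ← y2, z2]
      · rw [(x3 n).1, ← (y3 n).1, (z3 n).1]
      · rw [(x3 n).2, ← (y3 n).2, (z3 n).2]
  have hq1 : ∀ (q : Set (ℕ × ℕ)) (x y : ℕ), (x, y) ∈ q →
      BF (lift (Nm O R)) (lift W) univ univ 1 q → mt R O W x y := by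
    intro q x y hxy hq
    refine ⟨fun k => ?_, fun k hk b hb => ?_⟩
    · rw [← piso_co (n := 2 * k + 1) hq.piso hxy]
      unfold Nm
      rw [co_ex_odd]
    · obtain ⟨x', -, hx'⟩ := hq.back zero_lt_one (mem_univ b)
      have hp := hx'.piso
      have h4 := (piso_co (n := 2 * k + 1) hp (mem_insert _ _)).2 hb
      unfold Nm at h4
      rw [co_ex_odd] at h4
      obtain ⟨rfl, -⟩ := h4
      have h5 := piso_lt hp (mem_insert _ _) (mem_insert_of_mem _ hxy)
      have h6 := piso_lt hp (mem_insert_of_mem _ hxy) (mem_insert _ _)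
      have h7 := fun n => piso_ac (n := n) hp (mem_insert _ _) (mem_insert_of_mem _ hxy)
      have h8 := fun n => piso_ac (n := n) hp (mem_insert_of_mem _ hxy) (mem_insert _ _)
      unfold Nm at h5 h6 h7 h8
      simp only [lt_ex, ac_ex] at h5 h6 h7 h8
      exact ⟨h5, h6, fun n => ⟨h7 n, h8 n⟩⟩
  obtain ⟨h1, h2, h3⟩ := hM (Nm O R) W univ univ (mt R O W) hd hW hq1
  refine ⟨fun x => (h1 x trivial).2, injOn_univ.1 h2, fun y => ?_⟩
  obtain ⟨x, -, hx⟩ := h3 y trivial
  exact ⟨x, hx⟩

end Pool.Agent.Y417.TF.PL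

namespace Pool.Agent.Y417.TF

open Set MeasureTheory
open Pool.Agent.H899R2.VP (St Adj PIso BF IsoOn idOn inv comp zipSet)
open Pool.Agent.H533R2.VO (RS lift put OS Ic RIso Dich VC BlkV S_FINAL)
open Pool.Agent.H566P (ar R2 v2 a0 a1 lt ac co mk S_ACC S_MSG)
open Pool.Agent.Y560.TG (acc msg lt_mk ac_mk co_mk R2_ext piso_iff riso_iff riso_isoOn meas_lt
  meas_ac meas_co meas_into cont_into piso_lt piso_ac piso_co piso_eq ex lt_ex ac_ex co_ex_even
  co_ex_odd piso_ex orb orb_ex Nm Off Sm Thin Few bf_trans0 bf_symm0 iso_trans0 iso_symm0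
  iso_refl0 S_EXT S_GL S_MAT S_BP mat pick Se)
open Pool.Agent.Y560.TF
open PL

/-- PL -/
theorem t_PL (hM : S_MAT) : S_PL := by
  intro R O
  refine ⟨plm R O, meas_plm R O, fun W hW => ?_⟩
  obtain ⟨hm, hb⟩ := ph_bij hM R O W hW
  have hiso : RIso (Nm O (plm R O W)) W := by
    refine riso_iff.2 ⟨Equiv.ofBijective _ hb, fun x y => ?_, fun n x y => ?_, fun n x => ?_⟩
    · unfold Nm plm
      rw [lt_ex, lt_mk]
      rfl
    · unfold Nm plm
      rw [ac_ex, ac_mk]
      rfl
    · obtain ⟨k, rfl | rfl⟩ : ∃ k, n = 2 * k ∨ n = 2 * k + 1 := ⟨n / 2, by omega⟩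
      · unfold Nm plm
        rw [co_ex_even, co_mk]
        rfl
      · unfold Nm
        rw [co_ex_odd]
        exact ((hm x).1 k).symm
  have hnm : ∀ x, x ∉ O → co W (2 * x + 1) (ph R O W x) := fun x hx => ((hm x).1 x).1 ⟨rfl, hx⟩
  refine ⟨hiso, fun x y hxy => ?_, fun n x y hxy => ?_, fun n x hx => ?_⟩
  · unfold plm
    rw [lt_mk]
    by_cases hx : x ∈ O
    · have hy : y ∉ O := fun hy => hxy ⟨hx, hy⟩
      exact ((hm x).2 y hy _ (hnm y hy)).2.1.symm
    · exact ((hm y).2 x hx _ (hnm x hx)).1.symm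
  · unfold plm
    rw [ac_mk]
    by_cases hx : x ∈ O
    · have hy : y ∉ O := fun hy => hxy ⟨hx, hy⟩
      exact (((hm x).2 y hy _ (hnm y hy)).2.2 n).2.symm
    · exact (((hm y).2 x hx _ (hnm x hx)).2.2 n).1.symm
  · obtain ⟨x', -, hx'⟩ := hW.forth Ordinal.omega0_pos (mem_univ x)
    have hp := hx'.piso
    have h4 := (piso_co (n := 2 * x + 1) hp (mem_insert _ _)).1 (by
      unfold Nm
      rw [co_ex_odd]
      exact ⟨rfl, hx⟩)
    have h5 : x' = ph R O W x := by
      obtain ⟨z, hz⟩ := hb.2 x'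
      have h6 := ((hm z).1 x).2 (by rw [hz]; exact h4)
      rw [← hz, h6.1]
    subst h5
    have h6 := piso_co (n := 2 * n) hp (mem_insert _ _)
    unfold Nm at h6
    rw [co_ex_even] at h6
    unfold plm
    rw [co_mk]
    exact h6.symm

end Pool.Agent.Y417.TF
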